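import Pool.Agent.Helper52.GPM.S

/-!
# Gilbert-Pollak, chapter MSTF: cut along a chord, mirror image
-/

namespace Pool.Agent.Helper78.GPM

open Relation Classical Pool.Agent.Helper18.GP Pool.Agent.Helper52.GPM

private theorem eg_mono2 {α : Type*} {r s : α → α → Prop} (h : ∀ x y, r x y → s x y) {x y : α}
    (hxy : EqvGen r x y) : EqvGen s x y := by
  induction hxy with
  | rel x y h1 => exact EqvGen.rel _ _ (h x y h1)
  | refl x => exact EqvGen.refl x
  | symm x y _ ih => exact EqvGen.symm _ _ ih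
  | trans x y z _ _ ih1 ih2 => exact EqvGen.trans _ _ _ ih1 ih2

theorem mod_stCut2 (hB : mBd) (hFo : mFollow) (hU : mUnion) : stCut2 := by
  intro N V A F d hd hFA w hw u hu hwu hyp
  set S := Arc V u w with hS
  set T := Arc V w u with hT
  have hwS : w ∈ S := right_mem_Arc hw
  have huS : u ∈ S := left_mem_Arc hu
  have huT : u ∈ T := right_mem_Arc hu
  have hwT : w ∈ T := left_mem_Arc hw
  obtain ⟨s1, -, -⟩ := hB N V u w hu hw hwu.symm
  obtain ⟨t1, t2, -⟩ := hB N V w u hw hu hwu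
  -- reaching an active vertex from `u` inside `S`
  have hu' : ∃ a ∈ insert w (A ∩ S), EqvGen (Fr F S) u a := by
    rcases hyp with h | h
    · exact ⟨u, Finset.mem_insert_of_mem (Finset.mem_inter.2 ⟨h, huS⟩), EqvGen.refl _⟩
    · exact h
  refine ⟨⟨Finset.insert_subset hwS Finset.inter_subset_right, ?_, ?_⟩, ⟨?_, ?_, ?_⟩, ?_⟩
  · intro x y h
    exact s1 x y (hFA.FB _ _ h.1) h.2.1 h.2.2
  · intro v hv
    obtain ⟨α, hα, hpath⟩ := hFA.cov v (Arc_sub _ _ _ hv)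
    rcases hFo N V F hFA.FB u hu w hw hwu.symm v hv α hpath with ⟨h1, h2⟩ | h1 | h1
    · exact ⟨α, Finset.mem_insert_of_mem (Finset.mem_inter.2 ⟨hα, h1⟩), h2⟩
    · obtain ⟨a, ha, hua⟩ := hu'
      exact ⟨a, ha, EqvGen.trans _ _ _ h1 hua⟩
    · exact ⟨w, Finset.mem_insert_self _ _, h1⟩
  · exact Finset.insert_subset hwT
      ((Finset.erase_subset _ _).trans Finset.inter_subset_right)
  · rintro x y (h | ⟨rfl, rfl⟩)
    · exact t1 x y (hFA.FB _ _ h.1) h.2.1 h.2.2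
    · exact t2
  · intro v hv
    have hnew : EqvGen (Fa (Fr F T) w u) u w :=
      EqvGen.symm _ _ (EqvGen.rel _ _ (Or.inr ⟨rfl, rfl⟩))
    have hm : ∀ {x y}, EqvGen (Fr F T) x y → EqvGen (Fa (Fr F T) w u) x y :=
      fun h => eg_mono2 (fun _ _ h => Or.inl h) h
    obtain ⟨α, hα, hpath⟩ := hFA.cov v (Arc_sub _ _ _ hv)
    rcases hFo N V F hFA.FB w hw u hu hwu v hv α hpath with ⟨h1, h2⟩ | h1 | h1
    · by_cases hαu : α = u
      · rw [hαu] at h2
        exact ⟨w, Finset.mem_insert_self _ _, EqvGen.trans _ _ _ (hm h2) hnew⟩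
      · exact ⟨α, Finset.mem_insert_of_mem
          (Finset.mem_erase.2 ⟨hαu, Finset.mem_inter.2 ⟨hα, h1⟩⟩), hm h2⟩
    · exact ⟨w, Finset.mem_insert_self _ _, hm h1⟩
    · exact ⟨w, Finset.mem_insert_self _ _, EqvGen.trans _ _ _ (hm h1) hnew⟩
  · refine hU N V S T F (Fr F S) (Fa (Fr F T) w u) d (fun a ha b hb => (hd a ha b hb).1)
      (Arc_sub _ _ _) (Arc_sub _ _ _) (fun v hv => mem_Arc_or hwu hv)
      ⟨w, hwS, hwT⟩ (fun x y h => h.1) ?_
    rintro m hm x y (h | ⟨rfl, rfl⟩)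
    · exact EqvGen.rel _ _ (Or.inr h.1)
    · exact eg_mono2 (fun _ _ h => h.imp_right fun h => h.1) (hm.2 x hwS y huS)

end Pool.Agent.Helper78.GPM
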